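import Pool.Agent.H891FSS.FS_RESULT

set_option autoImplicit false

namespace Pool.Agent.Results.MP_ca05b3_co.LinearFreeSubsets

open Pool.Agent.H891WLC

/-- `p` is a straight-line crossing-free drawing of `G`: distinct vertices are distinct points, no
vertex lies on the closed segment of an edge except its two ends, and the segments of two different
edges meet only in a common end vertex. -/
def Drawing {V : Type} (G : SimpleGraph V) (p : V → ℝ × ℝ) : Prop :=
  Function.Injective p ∧
    (∀ u v w : V, G.Adj u v → w ≠ u → w ≠ v → p w ∉ segment ℝ (p u) (p v)) ∧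
    (∀ u v x y : V, G.Adj u v → G.Adj x y → s(u, v) ≠ s(x, y) →
      ∀ z ∈ segment ℝ (p u) (p v), z ∈ segment ℝ (p x) (p y) →
        ∃ w : V, (w = u ∨ w = v) ∧ (w = x ∨ w = y) ∧ z = p w)

/-- `G` is planar (it has a straight-line crossing-free drawing) -/
def Planar {V : Type} (G : SimpleGraph V) : Prop := ∃ p : V → ℝ × ℝ, Drawing G p

/-- every vertex has degree three -/
def Cubic {V : Type} (G : SimpleGraph V) : Prop := ∀ v, Set.ncard {x | G.Adj v x} = 3

/-- at least four vertices, and connected after deleting any two vertices -/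
def Triconnected {V : Type} [Fintype V] (G : SimpleGraph V) : Prop :=
  4 ≤ Fintype.card V ∧ ∀ x y : V, x ≠ y → (G.induce ({x, y}ᶜ : Set V)).Connected

/-- `S` is a free set of `G`: its elements can be listed as `v 0, …, v (s-1)` (each once) such that for
all reals `x 0 < … < x (s-1)` and all reals `y 0, …, y (s-1)` there is a straight-line crossing-free
drawing of `G` that places `v i` at `(x i, y i)` for every `i`. -/
def IsFreeSet {V : Type} (G : SimpleGraph V) (S : Finset V) : Prop :=
  ∃ v : Fin S.card → V, Function.Injective v ∧ (∀ a, a ∈ S ↔ ∃ i, v i = a) ∧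
    ∀ x y : Fin S.card → ℝ, StrictMono x →
      ∃ p : V → ℝ × ℝ, Drawing G p ∧ ∀ i, p (v i) = (x i, y i)

/-- **Full answer to Q1.** There is a constant `c > 0` such that for every triconnected cubic planar
graph `G` and every set `X` of vertices, some `S ⊆ X` with `|S| ≥ c |X|` is a free set of `G`. -/
theorem result : ∃ c : ℝ, 0 < c ∧ ∀ (V : Type) [Fintype V] (G : SimpleGraph V),
    Planar G → Cubic G → Triconnected G →
      ∀ X : Finset V, ∃ S : Finset V, S ⊆ X ∧ IsFreeSet G S ∧ c * (X.card : ℝ) ≤ S.card := by
  classical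
  refine ⟨1 / 50, by norm_num, ?_⟩
  intro V _ G hP hC hT X
  obtain ⟨s, v, hv, hvX, hcard, hfree⟩ := FS_RESULT G hP hC hT.1 hT.2 X
  have hc : (Finset.univ.image v).card = s := by
    rw [Finset.card_image_of_injective _ hv]; simp
  refine ⟨Finset.univ.image v, ?_, ?_, ?_⟩
  · intro a ha
    obtain ⟨i, _, rfl⟩ := Finset.mem_image.mp ha
    exact hvX i
  · refine ⟨fun i => v (Fin.cast hc i), ?_, ?_, ?_⟩
    · intro i j hij
      have := hv hij
      exact Fin.cast_injective hc this
    · intro a
      constructor
      · intro ha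
        obtain ⟨i, _, rfl⟩ := Finset.mem_image.mp ha
        exact ⟨Fin.cast hc.symm i, by simp⟩
      · rintro ⟨i, rfl⟩
        exact Finset.mem_image_of_mem _ (Finset.mem_univ _)
    · intro x y hx
      obtain ⟨q, hq, hqv⟩ := hfree (fun i => x (Fin.cast hc.symm i)) (fun i => y (Fin.cast hc.symm i))
        (fun i j hij => hx (by simpa using hij))
      exact ⟨q, hq, fun i => by simpa using hqv (Fin.cast hc i)⟩
  · rw [hc]
    have h50 : (X.card : ℝ) ≤ 50 * (s : ℝ) := hcard
    linarith

end Pool.Agent.Results.MP_ca05b3_co.LinearFreeSubsets
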